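import Mathlib
import Pool.Agent.H18.MOsum

open Filter Topology

namespace Pool.Agent.Results.MP_2ae949_nt.Omega

/-- MO functions; the value `f 0` plays no role -/
def IsMO (f : ℕ → ℂ) : Prop :=
  f 1 = 1 ∧ (∀ m n : ℕ, 0 < m → 0 < n → Nat.Coprime m n → f (m * n) = f m * f n) ∧
  Tendsto (fun N : ℕ => ∑ n ∈ Finset.Icc 1 N, f n) atTop (𝓝 0) ∧
  ∀ p : ℕ, p.Prime → ∃ c : ℂ, c ≠ 0 ∧
    Tendsto (fun K : ℕ => ∑ k ∈ Finset.range K, f (p ^ k)) atTop (𝓝 c)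

/-- the summatory function -/
noncomputable def S (f : ℕ → ℂ) (x : ℝ) : ℂ := ∑ n ∈ Finset.Icc 1 ⌊x⌋₊, f n

theorem result (f : ℕ → ℂ) (hf : IsMO f) :
    (∀ L : ℝ, L < 1 / 2 → ∃ᶠ x : ℝ in atTop, L < x * ‖S f x‖) ∧
    ¬ Tendsto (fun x : ℝ => x * ‖S f x‖) atTop (𝓝 0) := by
  obtain ⟨h1, hmul, -, hloc⟩ := hf
  have H : ∀ L : ℝ, L < 1 / 2 → ∃ᶠ x : ℝ in atTop, L < x * ‖S f x‖ := by
    intro L hL
    have h := Pool.Agent.H18.MOsum.main f h1 hmul hloc hL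
    refine (tendsto_natCast_atTop_atTop (R := ℝ)).frequently ?_
    simpa [S] using h
  refine ⟨H, fun ht => ?_⟩
  have h2 := ht.eventually (eventually_lt_nhds (show (0 : ℝ) < 1 / 4 by norm_num))
  obtain ⟨x, hx1, hx2⟩ := ((H (1 / 4) (by norm_num)).and_eventually h2).exists
  linarith

end Pool.Agent.Results.MP_2ae949_nt.Omega
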